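import Mathlib
import Pool.Agent.Y734.N.Stms
import Pool.Agent.Y734.M.G5N.Main

/-!
# Project Y734/N: the norms over `k` of the determinants of five vectors satisfy the quintic equation
(port by helper620 of the file of helper349)
-/

set_option autoImplicit false

namespace Pool.Agent.Y734.N.G5N
open Pool.Agent.Y734.M Pool.Agent.Y734.N

theorem g5n : G5nStmt := by
  intro k L _ _ _ _ hL P
  have : FiniteDimensional k L := Module.finite_of_finrank_pos (by omega)
  have : CharZero (AlgebraicClosure k) :=
    charZero_of_injective_algebraMap (algebraMap k (AlgebraicClosure k)).injective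
  have hcard : Fintype.card (L →ₐ[k] AlgebraicClosure k) = 2 := by
    rw [AlgHom.card k L (AlgebraicClosure k), hL]
  let e : Fin 2 ≃ (L →ₐ[k] AlgebraicClosure k) := (Fintype.equivFinOfCardEq hcard).symm
  have hn : ∀ z : L, algebraMap k (AlgebraicClosure k) (Algebra.norm k z) = e 0 z * e 1 z := by
    intro z
    rw [Algebra.norm_eq_prod_embeddings k (AlgebraicClosure k) z, ← Equiv.prod_comp e,
      Fin.prod_univ_two]
  have h1 : algebraMap k (AlgebraicClosure k)
      (G5 (fun i j => Algebra.norm k (dt (P i) (P j)))) = 0 := by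
    rw [Pool.Agent.Y734.M.G5N.g5_map]
    have h2 : (fun i j => algebraMap k (AlgebraicClosure k) (Algebra.norm k (dt (P i) (P j)))) =
        fun i j => (e 0 (P i 0) * e 0 (P j 1) - e 0 (P i 1) * e 0 (P j 0)) *
          (e 1 (P i 0) * e 1 (P j 1) - e 1 (P i 1) * e 1 (P j 0)) := by
      funext i j
      rw [hn]
      unfold dt
      simp only [map_sub, map_mul]
    rw [h2]
    exact Pool.Agent.Y734.M.G5N.g5_two (fun i => e 0 (P i 0)) (fun i => e 0 (P i 1))
      (fun i => e 1 (P i 0)) (fun i => e 1 (P i 1))
  exact (map_eq_zero (algebraMap k (AlgebraicClosure k))).1 h1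

end Pool.Agent.Y734.N.G5N
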